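import Pool.Agent.Helper86.QA.St4

set_option autoImplicit false

open MeasureTheory Matrix Set Topology Filter
open scoped ENNReal ComplexConjugate ComplexOrder

namespace Pool.Agent.Helper72.QA

open Pool.Agent.Helper86.QA Pool.Agent.Helper20
open Pool.Agent.Helper35.PM (hs IsDiscrete ConvexCocompact IsQF limitSet density ent num classes
  SurfaceGroup)
open Pool.Agent.Helper20.QD (Fuch Good OutSide OneSide Lam inn out Qp Qinf sph act orb fr IsSU CC
  mob Param)

/-- an element of `SU(1,1)` maps the disc to itself -/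
private theorem su_disc (A : SL) (h : IsSU A) (z : ℂ) (hz : ‖z‖ < 1) :
    QD.den A z ≠ 0 ∧ ‖mob A z‖ < 1 := by
  obtain ⟨h1, h2⟩ := h
  have hdet : (A : Mat) 0 0 * (A : Mat) 1 1 - (A : Mat) 0 1 * (A : Mat) 1 0 = 1 := by
    have := A.det_coe
    rwa [Matrix.det_fin_two] at this
  rw [h1, h2] at hdet
  obtain ⟨a, ha⟩ : ∃ a, a = (A : Mat) 0 0 := ⟨_, rfl⟩
  obtain ⟨b, hb⟩ : ∃ b, b = (A : Mat) 0 1 := ⟨_, rfl⟩
  rw [← ha, ← hb] at hdet
  have hden : QD.den A z = conj b * z + conj a := by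
    unfold QD.den
    rw [h1, h2, ← ha, ← hb]
  have hmob : mob A z = (a * z + b) / (conj b * z + conj a) := by
    unfold mob
    rw [h1, h2, ← ha, ← hb]
  have hd : a.re * a.re + a.im * a.im - (b.re * b.re + b.im * b.im) = 1 := by
    have := congrArg Complex.re hdet
    simp only [Complex.sub_re, Complex.mul_re, Complex.conj_re, Complex.conj_im,
      Complex.one_re] at this
    linarith
  have hkey : Complex.normSq (conj b * z + conj a) - Complex.normSq (a * z + b)
      = 1 - Complex.normSq z := by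
    simp only [Complex.normSq_apply, Complex.add_re, Complex.add_im, Complex.mul_re,
      Complex.mul_im, Complex.conj_re, Complex.conj_im]
    linear_combination (1 - z.re * z.re - z.im * z.im) * hd
  have hz' : Complex.normSq z < 1 := by
    rw [Complex.normSq_eq_norm_sq]
    have := norm_nonneg z
    nlinarith
  have hpos : 0 < Complex.normSq (conj b * z + conj a) := by
    have := Complex.normSq_nonneg (a * z + b)
    linarith
  have hne : conj b * z + conj a ≠ 0 := Complex.normSq_pos.1 hpos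
  refine ⟨by rwa [hden], ?_⟩
  rw [hmob, norm_div, div_lt_one (norm_pos_iff.2 hne)]
  have h3 : ‖a * z + b‖ ^ 2 < ‖conj b * z + conj a‖ ^ 2 := by
    rw [← Complex.normSq_eq_norm_sq, ← Complex.normSq_eq_norm_sq]
    linarith
  exact lt_of_pow_lt_pow_left₀ 2 (norm_nonneg _) h3

private theorem outside_preconnected : IsPreconnected {z : ℂ | 1 < ‖z‖} := by
  have h : {z : ℂ | 1 < ‖z‖} = Complex.exp '' {z : ℂ | 0 < z.re} := by
    ext z
    constructor
    · intro hz
      have hz1 : 1 < ‖z‖ := hz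
      have hz0 : z ≠ 0 := by
        rintro rfl
        simp at hz1
        linarith
      refine ⟨Complex.log z, ?_, Complex.exp_log hz0⟩
      show 0 < (Complex.log z).re
      rw [Complex.log_re]
      exact Real.log_pos hz1
    · rintro ⟨u, hu, rfl⟩
      show 1 < ‖Complex.exp u‖
      rw [Complex.norm_exp]
      exact Real.one_lt_exp_iff.2 hu
  rw [h]
  exact ((convex_halfSpace_re_gt 0).isPreconnected).image _ Complex.continuous_exp.continuousOn

theorem hTGO (hLQC : QD.StLQC) (hLLS : QD.StLLS) (hTJ1 : QD.StTJ1) (hTJ2 : QD.StTJ2)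
    (hTDS : StTDS) (hTLM : StTLM) (hHCC : StHCC) : StTGO := by
  intro Γ _ σ ρ w hT
  obtain ⟨hlim, hcon⟩ := hTLM Γ σ ρ w hT
  obtain ⟨-, -, q3, -, -, -, qinj, -⟩ := hLQC
  have hwc : Continuous w := hT.ho.continuous
  have hwi : Function.Injective w := hT.ho.injective
  have hws : Function.Surjective w := hT.ho.surjective
  have hinf : Qinf ∉ limitSet ρ := by
    rw [hlim]
    rintro ⟨z, -, hz⟩
    exact (q3 z).2 hz
  have hLam : Lam ρ = w '' Metric.sphere 0 1 := by
    ext z
    show Qp z ∈ limitSet ρ ↔ _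
    rw [hlim]
    exact qinj.mem_set_image
  have hP : Param w (w '' Metric.sphere 0 1) := ⟨hwc.continuousOn, hwi.injOn, rfl⟩
  obtain ⟨J, hJ⟩ : ∃ J, J = w '' Metric.sphere (0 : ℂ) 1 := ⟨_, rfl⟩
  rw [← hJ] at hP hLam
  obtain ⟨hin, -⟩ := hTJ1 w J hP
  obtain ⟨o1, -, -, o2, -, -, -, R, hR1, hR2⟩ := hTJ2 w J hP
  have hdis : Disjoint (inn J) (out J) := by
    rw [Set.disjoint_left]
    rintro z hz1 hz2
    exact hz1.2 hz2.2
  have hcov : ∀ z, z ∉ J → z ∈ inn J ∪ out J := by
    intro z hz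
    by_cases h : QD.LogOn J (fun x => x - z)
    · exact Or.inr ⟨hz, h⟩
    · exact Or.inl ⟨hz, h⟩
  -- the image of the outside
  have hW2 : w '' {z : ℂ | 1 < ‖z‖} ⊆ out J := by
    have hc : IsPreconnected (w '' {z : ℂ | 1 < ‖z‖}) :=
      outside_preconnected.image _ hwc.continuousOn
    obtain ⟨M, hM⟩ := ((isCompact_closedBall (0 : ℂ) 1).image hwc).isBounded.exists_norm_le
    have hp : ∃ p : ℂ, R ≤ ‖p‖ ∧ M < ‖p‖ := by
      refine ⟨((|R| + |M| + 1 : ℝ) : ℂ), ?_, ?_⟩
      · rw [Complex.norm_real, Real.norm_eq_abs]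
        have h1 := le_abs_self R
        have h2 := abs_nonneg M
        have h3 := le_abs_self (|R| + |M| + 1)
        linarith
      · rw [Complex.norm_real, Real.norm_eq_abs]
        have h1 := le_abs_self M
        have h2 := abs_nonneg R
        have h3 := le_abs_self (|R| + |M| + 1)
        linarith
    obtain ⟨p, hp1, hp2⟩ := hp
    obtain ⟨z, rfl⟩ := hws p
    have hz : 1 < ‖z‖ := by
      by_contra h
      push Not at h
      have := hM (w z) ⟨z, by simpa using h, rfl⟩
      linarith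
    refine hc.subset_right_of_subset_union o1 o2 hdis ?_ ⟨w z, ⟨z, hz, rfl⟩, hR2 _ hp1⟩
    rintro _ ⟨u, hu, rfl⟩
    refine hcov _ ?_
    rw [hJ]
    rintro ⟨v, hv, hvu⟩
    have := hwi hvu
    subst this
    have h1 : ‖v‖ = 1 := by simpa using hv
    have h2 : 1 < ‖v‖ := hu
    linarith
  have hsplit : ∀ z : ℂ, z ∈ w '' Metric.ball 0 1 ∨ z ∈ J ∨ z ∈ w '' {z : ℂ | 1 < ‖z‖} := by
    intro z
    obtain ⟨u, rfl⟩ := hws z
    rcases lt_trichotomy ‖u‖ 1 with h | h | h
    · exact Or.inl ⟨u, by simpa using h, rfl⟩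
    · refine Or.inr (Or.inl ?_)
      rw [hJ]
      exact ⟨u, by simpa using h, rfl⟩
    · exact Or.inr (Or.inr ⟨u, h, rfl⟩)
  have hin1 : inn J ⊆ w '' Metric.ball 0 1 := by
    intro z hz
    rcases hsplit z with h | h | h
    · exact h
    · exact absurd h hz.1
    · exact absurd (hW2 h) (fun h' => (Set.disjoint_left.1 hdis) hz h')
  have hW1 : w '' Metric.ball 0 1 ⊆ inn J := by
    have hc : IsPreconnected (w '' Metric.ball (0 : ℂ) 1) :=
      ((convex_ball (0 : ℂ) 1).isPreconnected).image _ hwc.continuousOn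
    obtain ⟨p, hp⟩ := hin
    refine hc.subset_left_of_subset_union o1 o2 hdis ?_ ⟨p, hin1 hp, hp⟩
    rintro _ ⟨u, hu, rfl⟩
    refine hcov _ ?_
    rw [hJ]
    rintro ⟨v, hv, hvu⟩
    have := hwi hvu
    subst this
    have h1 : ‖v‖ = 1 := by simpa using hv
    have h2 : ‖v‖ < 1 := by simpa using hu
    linarith
  have hinn : inn J = w '' Metric.ball 0 1 := Set.Subset.antisymm hin1 hW1
  have hout : out J = w '' {z : ℂ | 1 < ‖z‖} := by
    refine Set.Subset.antisymm ?_ hW2
    intro z hz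
    rcases hsplit z with h | h | h
    · exact absurd hz (fun h' => (Set.disjoint_left.1 hdis) (hW1 h) h')
    · exact absurd h hz.1
    · exact h
  have hdisc : IsDiscrete ρ := hTDS Γ σ ρ w hT
  refine ⟨?_, by rw [hLam, hJ], by rw [hLam]; exact hinn, by rw [hLam]; exact hout⟩
  refine ⟨⟨hdisc, hHCC Γ ρ hdisc hcon ?_⟩, hinf, ⟨w, by rw [hLam]; exact hP⟩, ?_⟩
  · rw [hlim]
    refine ⟨Qp (w 1), ⟨w 1, ⟨1, by simp, rfl⟩, rfl⟩, Qp (w (-1)), ⟨w (-1), ⟨-1, by simp, rfl⟩, rfl⟩,
      ?_⟩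
    intro h
    have h1 := hwi (qinj h)
    have h2 := congrArg Complex.re h1
    simp at h2
    linarith
  · intro γ z hz
    rw [hLam] at hz ⊢
    obtain ⟨u, hu, rfl⟩ := hin1 hz
    have hu' : ‖u‖ < 1 := by simpa using hu
    obtain ⟨h1, h2⟩ := su_disc (σ γ) (hT.fs.su γ) u hu'
    obtain ⟨h3, h4⟩ := hT.eq γ u
    refine ⟨fun h => h1 (h3.2 h), ?_⟩
    rw [← h4 h1, hinn]
    exact ⟨_, by simpa using h2, rfl⟩

end Pool.Agent.Helper72.QA
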