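import Pool.Agent.Helper86.QA.St5

set_option autoImplicit false

open MeasureTheory Matrix Set Topology Filter
open scoped ENNReal ComplexConjugate ComplexOrder

namespace Pool.Agent.Helper72.QA

open Pool.Agent.Helper86.QA Pool.Agent.Helper20
open Pool.Agent.Helper20.QD (Fuch IsSU mob dz dzb)

private noncomputable def wt (z : ℂ) : ℝ≥0∞ := ENNReal.ofReal (4 / (1 - ‖z‖ ^ 2) ^ 2)

private theorem wt_meas : Measurable wt := by
  unfold wt
  exact (measurable_const.div ((measurable_const.sub
    (measurable_norm.pow_const 2)).pow_const 2)).ennreal_ofReal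

private theorem lint (f : ℂ → ℝ≥0∞) (hf : Measurable f) :
    ∫⁻ z, f z ∂m2 = ∫⁻ z, (Metric.ball (0 : ℂ) 1).indicator (fun z => wt z * f z) z := by
  unfold m2
  have h := lintegral_withDensity_eq_lintegral_mul
    ((volume : Measure ℂ).restrict (Metric.ball 0 1)) wt_meas hf
  have h2 : ((volume : Measure ℂ).restrict (Metric.ball 0 1)).withDensity wt =
    ((volume : Measure ℂ).restrict (Metric.ball 0 1)).withDensity
    (fun z => ENNReal.ofReal (4 / (1 - ‖z‖ ^ 2) ^ 2)) := rfl
  rw [h2] at h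
  rw [h, lintegral_indicator Metric.isOpen_ball.measurableSet]
  rfl

/-- entries and identities of an element of `SU(1,1)` -/
private theorem su_id (A : SL) (h : IsSU A) : ∃ a b : ℂ, (∀ z, QD.den A z = conj b * z + conj a) ∧
    (∀ z, mob A z = (a * z + b) / (conj b * z + conj a)) ∧
    a * conj a - b * conj b = 1 := by
  obtain ⟨h1, h2⟩ := h
  have hdet : (A : Mat) 0 0 * (A : Mat) 1 1 - (A : Mat) 0 1 * (A : Mat) 1 0 = 1 := by
    have := A.det_coe
    rwa [Matrix.det_fin_two] at this
  rw [h1, h2] at hdet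
  refine ⟨(A : Mat) 0 0, (A : Mat) 0 1, fun z => ?_, fun z => ?_, hdet⟩
  · unfold QD.den
    rw [h1, h2]
  · unfold mob
    rw [h1, h2]

private theorem su_key (a b z : ℂ) (h : a * conj a - b * conj b = 1) :
    Complex.normSq (conj b * z + conj a) - Complex.normSq (a * z + b) = 1 - Complex.normSq z := by
  have hd : a.re * a.re + a.im * a.im - (b.re * b.re + b.im * b.im) = 1 := by
    have := congrArg Complex.re h
    simp only [Complex.sub_re, Complex.mul_re, Complex.conj_re, Complex.conj_im,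
      Complex.one_re] at this
    linarith
  simp only [Complex.normSq_apply, Complex.add_re, Complex.add_im, Complex.mul_re,
    Complex.mul_im, Complex.conj_re, Complex.conj_im]
  linear_combination (1 - z.re * z.re - z.im * z.im) * hd

/-- (norm identity) -/
private theorem su_norm (A : SL) (h : IsSU A) (z : ℂ) (hz : QD.den A z ≠ 0) :
    1 - ‖mob A z‖ ^ 2 = (1 - ‖z‖ ^ 2) / ‖QD.den A z‖ ^ 2 := by
  obtain ⟨a, b, h1, h2, h3⟩ := su_id A h
  rw [h1] at hz ⊢
  have h4 := su_key a b z h3
  rw [Complex.normSq_eq_norm_sq, Complex.normSq_eq_norm_sq, Complex.normSq_eq_norm_sq] at h4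
  have h5 : ‖conj b * z + conj a‖ ≠ 0 := norm_ne_zero_iff.2 hz
  rw [h2, norm_div, ← h4]
  generalize ‖conj b * z + conj a‖ = d at h5 ⊢
  field_simp

private theorem su_den (A : SL) (h : IsSU A) (z : ℂ) (hz : z ∈ Metric.ball (0 : ℂ) 1) :
    QD.den A z ≠ 0 := by
  obtain ⟨a, b, h1, h2, h3⟩ := su_id A h
  have h4 := su_key a b z h3
  have hz' : Complex.normSq z < 1 := by
    rw [Complex.normSq_eq_norm_sq]
    have h5 : ‖z‖ < 1 := by simpa using hz
    have := norm_nonneg z
    nlinarith
  rw [h1]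
  apply Complex.normSq_pos.1
  have := Complex.normSq_nonneg (a * z + b)
  linarith

private theorem mem_disc (z : ℂ) : z ∈ Metric.ball (0 : ℂ) 1 ↔ 0 < 1 - ‖z‖ ^ 2 := by
  rw [mem_ball_zero_iff]
  have := norm_nonneg z
  constructor
  · intro h
    nlinarith
  · intro h
    nlinarith

private theorem su_ball (A : SL) (h : IsSU A) (z : ℂ) (hz : QD.den A z ≠ 0) :
    mob A z ∈ Metric.ball (0 : ℂ) 1 ↔ z ∈ Metric.ball (0 : ℂ) 1 := by
  rw [mem_disc, mem_disc, su_norm A h z hz]
  have h5 : 0 < ‖QD.den A z‖ ^ 2 := by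
    have := norm_pos_iff.2 hz
    positivity
  constructor
  · intro h6
    by_contra h7
    push Not at h7
    have := div_nonpos_of_nonpos_of_nonneg h7 h5.le
    linarith
  · intro h6
    exact div_pos h6 h5

private theorem part3 (hCHV : StCHV) (A : SL) (h : IsSU A) (f : ℂ → ℝ≥0∞) (hf : Measurable f) :
    ∫⁻ z, f (mob A z) ∂m2 = ∫⁻ z, f z ∂m2 := by
  obtain ⟨c1, -, -, -, c5⟩ := hCHV
  have hm : Measurable (fun z => f (mob A z)) := hf.comp (c5 A)
  rw [lint _ hm, lint f hf]
  have hF : Measurable ((Metric.ball (0 : ℂ) 1).indicator (fun z => wt z * f z)) :=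
    (wt_meas.mul hf).indicator Metric.isOpen_ball.measurableSet
  rw [← c1 A _ hF]
  refine lintegral_congr fun z => ?_
  change _ = (Metric.ball (0 : ℂ) 1).indicator (fun z => wt z * f z) (mob A z) *
    ENNReal.ofReal (1 / ‖QD.den A z‖ ^ 4)
  by_cases hd : QD.den A z = 0
  · have hz : z ∉ Metric.ball (0 : ℂ) 1 := fun h' => su_den A h z h' hd
    rw [indicator_of_notMem hz, hd]
    simp
  · by_cases hz : z ∈ Metric.ball (0 : ℂ) 1
    · have hz' := (su_ball A h z hd).2 hz
      rw [indicator_of_mem hz, indicator_of_mem hz']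
      have h1 : wt (mob A z) * ENNReal.ofReal (1 / ‖QD.den A z‖ ^ 4) = wt z := by
        unfold wt
        rw [← ENNReal.ofReal_mul (by positivity), su_norm A h z hd]
        congr 1
        have h2 : ‖QD.den A z‖ ≠ 0 := norm_ne_zero_iff.2 hd
        have h3 : 1 - ‖z‖ ^ 2 ≠ 0 := ((mem_disc z).1 hz).ne'
        field_simp
      rw [← h1]
      ring
    · have hz' : mob A z ∉ Metric.ball (0 : ℂ) 1 := fun h' => hz ((su_ball A h z hd).1 h')
      rw [indicator_of_notMem hz, indicator_of_notMem hz', zero_mul]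

private theorem su_inv (A : SL) (h : IsSU A) : IsSU A⁻¹ := by
  obtain ⟨h1, h2⟩ := h
  have e : ((A⁻¹ : SL) : Mat) = !![(A : Mat) 1 1, -(A : Mat) 0 1; -(A : Mat) 1 0, (A : Mat) 0 0] := by
    rw [Matrix.SpecialLinearGroup.coe_inv, Matrix.adjugate_fin_two]
  constructor
  · rw [e]
    simp [h1]
  · rw [e]
    simp [h2]

private theorem part4 (x : ℂ) (hx : x ∈ Metric.ball (0 : ℂ) 1) :
    ∃ A : SL, IsSU A ∧ (∀ y, mq x y = mob A y) ∧
    (∀ u, pm x u = mob A⁻¹ u) ∧ (∀ u ∈ Metric.ball (0 : ℂ) 1, mq x (pm x u) = u ∧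
      pm x (mq x u) = u ∧ pm x u ∈ Metric.ball (0 : ℂ) 1 ∧ mq x u ∈ Metric.ball (0 : ℂ) 1) := by
  have hx1 : 0 < 1 - ‖x‖ ^ 2 := (mem_disc x).1 hx
  obtain ⟨s, hs⟩ : ∃ s : ℝ, s = (Real.sqrt (1 - ‖x‖ ^ 2))⁻¹ := ⟨_, rfl⟩
  have hs0 : 0 < s := by
    rw [hs]
    exact inv_pos.2 (Real.sqrt_pos.2 hx1)
  have hs2 : s ^ 2 * (1 - ‖x‖ ^ 2) = 1 := by
    rw [hs, inv_pow, Real.sq_sqrt hx1.le]
    field_simp
  have hsc : (s : ℂ) ≠ 0 := by exact_mod_cast hs0.ne'
  have hxx : x * conj x = ((‖x‖ ^ 2 : ℝ) : ℂ) := by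
    rw [Complex.mul_conj, Complex.normSq_eq_norm_sq]
  have hdet : (!![(s : ℂ), -(s * x); -(s * conj x), (s : ℂ)] : Mat).det = 1 := by
    rw [Matrix.det_fin_two]
    simp only [Matrix.of_apply, Matrix.cons_val', Matrix.cons_val_zero, Matrix.cons_val_one,
      Matrix.cons_val_fin_one]
    have h1 : (s : ℂ) * s - -(s * x) * -(s * conj x) = ((s ^ 2 * (1 - ‖x‖ ^ 2) : ℝ) : ℂ) := by
      push_cast
      have h2 : ((‖x‖ ^ 2 : ℝ) : ℂ) = (‖x‖ : ℂ) ^ 2 := by push_cast; rfl
      rw [← h2, ← hxx]
      ring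
    rw [h1, hs2]
    simp
  obtain ⟨A, hA⟩ : ∃ A : SL, A = ⟨!![(s : ℂ), -(s * x); -(s * conj x), (s : ℂ)], hdet⟩ := ⟨_, rfl⟩
  have hSU : IsSU A := by
    constructor
    · rw [hA]
      simp
    · rw [hA]
      simp
  have hmq : ∀ y, mq x y = mob A y := by
    intro y
    unfold mq mob
    rw [hA]
    simp only [Matrix.of_apply, Matrix.cons_val', Matrix.cons_val_zero, Matrix.cons_val_one,
      Matrix.cons_val_fin_one]
    have h1 : (s : ℂ) * y + -(s * x) = s * (y - x) := by ring
    have h2 : -(s * conj x) * y + (s : ℂ) = s * (1 - conj x * y) := by ring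
    rw [h1, h2, mul_div_mul_left _ _ hsc]
  have e : ((A⁻¹ : SL) : Mat) = !![(s : ℂ), (s * x); (s * conj x), (s : ℂ)] := by
    rw [Matrix.SpecialLinearGroup.coe_inv, Matrix.adjugate_fin_two, hA]
    simp
  have hpm : ∀ u, pm x u = mob A⁻¹ u := by
    intro u
    unfold pm mob
    rw [e]
    simp only [Matrix.of_apply, Matrix.cons_val', Matrix.cons_val_zero, Matrix.cons_val_one,
      Matrix.cons_val_fin_one]
    have h1 : (s : ℂ) * u + (s * x) = s * (u + x) := by ring
    have h2 : (s * conj x) * u + (s : ℂ) = s * (1 + conj x * u) := by ring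
    rw [h1, h2, mul_div_mul_left _ _ hsc]
  refine ⟨A, hSU, hmq, hpm, fun u hu => ?_⟩
  have hd1 := su_den A hSU u hu
  have hd2 := su_den A⁻¹ (su_inv A hSU) u hu
  have hd1' : 1 - conj x * u ≠ 0 := by
    intro h
    apply hd1
    unfold QD.den
    rw [hA]
    simp only [Matrix.of_apply, Matrix.cons_val', Matrix.cons_val_zero, Matrix.cons_val_one,
      Matrix.cons_val_fin_one]
    linear_combination (s : ℂ) * h
  have hd2' : 1 + conj x * u ≠ 0 := by
    intro h
    apply hd2
    unfold QD.den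
    rw [e]
    simp only [Matrix.of_apply, Matrix.cons_val', Matrix.cons_val_zero, Matrix.cons_val_one,
      Matrix.cons_val_fin_one]
    linear_combination (s : ℂ) * h
  have hxc : 1 - x * conj x ≠ 0 := by
    rw [hxx]
    have : ((1 - ‖x‖ ^ 2 : ℝ) : ℂ) ≠ 0 := by exact_mod_cast hx1.ne'
    intro h
    apply this
    push_cast
    push_cast at h
    exact h
  refine ⟨?_, ?_, ?_, ?_⟩
  · unfold mq pm
    have h1 : (u + x) / (1 + conj x * u) - x = u * (1 - x * conj x) / (1 + conj x * u) := by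
      rw [eq_div_iff hd2', sub_mul, div_mul_cancel₀ _ hd2']
      ring
    have h2 : 1 - conj x * ((u + x) / (1 + conj x * u)) = (1 - x * conj x) / (1 + conj x * u) := by
      rw [eq_div_iff hd2', sub_mul, mul_assoc, div_mul_cancel₀ _ hd2']
      ring
    rw [h1, h2, div_div_div_cancel_right₀ hd2', mul_div_assoc, div_self hxc, mul_one]
  · unfold mq pm
    have h1 : (u - x) / (1 - conj x * u) + x = u * (1 - x * conj x) / (1 - conj x * u) := by
      rw [eq_div_iff hd1', add_mul, div_mul_cancel₀ _ hd1']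
      ring
    have h2 : 1 + conj x * ((u - x) / (1 - conj x * u)) = (1 - x * conj x) / (1 - conj x * u) := by
      rw [eq_div_iff hd1', add_mul, mul_assoc, div_mul_cancel₀ _ hd1']
      ring
    rw [h1, h2, div_div_div_cancel_right₀ hd1', mul_div_assoc, div_self hxc, mul_one]
  · rw [hpm]
    exact (su_ball A⁻¹ (su_inv A hSU) u hd2).2 hu
  · rw [hmq]
    exact (su_ball A hSU u hd1).2 hu

private theorem part5 (A : SL) (h : IsSU A) (x y : ℂ) (hx : x ∈ Metric.ball (0 : ℂ) 1)
    (hy : y ∈ Metric.ball (0 : ℂ) 1) :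
    mq (mob A x) (mob A y) = conj (QD.den A x) / QD.den A x * mq x y := by
  have hdx := su_den A h x hx
  have hdy := su_den A h y hy
  obtain ⟨a, b, h1, h2, h3⟩ := su_id A h
  have hxy : 1 - conj x * y ≠ 0 := by
    intro h0
    have h5 : conj x * y = 1 := by linear_combination -h0
    have h6 : ‖x‖ * ‖y‖ = 1 := by
      have := congrArg norm h5
      rwa [norm_mul, RCLike.norm_conj, norm_one] at this
    have h7 : ‖x‖ < 1 := by simpa using hx
    have h8 : ‖y‖ < 1 := by simpa using hy
    have := norm_nonneg x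
    have := norm_nonneg y
    nlinarith
  rw [h1] at hdx hdy
  have hdx' : b * conj x + a ≠ 0 := by
    intro h0
    apply hdx
    have := congrArg (starRingEnd ℂ) h0
    simpa using this
  have e1 : mob A y - mob A x = (y - x) / ((conj b * x + conj a) * (conj b * y + conj a)) := by
    rw [h2, h2, div_sub_div _ _ hdy hdx,
      div_eq_div_iff (mul_ne_zero hdy hdx) (mul_ne_zero hdx hdy)]
    linear_combination (y - x) * (conj b * x + conj a) * (conj b * y + conj a) * h3
  have e2 : 1 - conj (mob A x) * mob A y =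
      (1 - conj x * y) / ((b * conj x + a) * (conj b * y + conj a)) := by
    rw [h2, h2]
    simp only [map_div₀, map_add, map_mul, Complex.conj_conj]
    rw [div_mul_div_comm, eq_div_iff (mul_ne_zero hdx' hdy), sub_mul,
      div_mul_cancel₀ _ (mul_ne_zero hdx' hdy)]
    linear_combination (1 - conj x * y) * h3
  unfold mq
  rw [e1, e2, h1]
  simp only [map_add, map_mul, Complex.conj_conj]
  generalize conj b * x + conj a = d1 at hdx ⊢
  generalize conj b * y + conj a = d2 at hdy ⊢
  generalize b * conj x + a = d3 at hdx' ⊢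
  generalize 1 - conj x * y = d4 at hxy ⊢
  field_simp

theorem hMQ1 (hCHV : StCHV) (hAD1 : StAD1) : StMQ1 := by
  have _ := hAD1
  refine ⟨?_, ?_, ?_, ?_, ?_, ?_, ?_⟩
  · unfold m2
    exact SigmaFinite.withDensity_of_ne_top' (fun x => ENNReal.ofReal_ne_top)
  · unfold m2
    rw [withDensity_apply _ Metric.isOpen_ball.measurableSet.compl,
      Measure.restrict_restrict Metric.isOpen_ball.measurableSet.compl,
      Set.compl_inter_self, Measure.restrict_empty, lintegral_zero_measure]
  · exact part3 hCHV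
  · exact part4
  · exact fun A h x hx y hy => part5 A h x y hx hy
  · intro f hf
    have hm : Measurable (fun z : ℂ => f (conj z)) := hf.comp Complex.continuous_conj.measurable
    rw [lint _ hm, lint f hf]
    have hF : Measurable ((Metric.ball (0 : ℂ) 1).indicator (fun z => wt z * f z)) :=
      (wt_meas.mul hf).indicator Metric.isOpen_ball.measurableSet
    have h1 := (Complex.conjLIE.measurePreserving).lintegral_comp hF
    rw [← h1]
    refine lintegral_congr fun z => ?_
    change _ = (Metric.ball (0 : ℂ) 1).indicator (fun z => wt z * f z) (conj z)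
    have h2 : wt (conj z) = wt z := by
      unfold wt
      rw [RCLike.norm_conj]
    by_cases hz : z ∈ Metric.ball (0 : ℂ) 1
    · have hz' : conj z ∈ Metric.ball (0 : ℂ) 1 := by
        rw [mem_ball_zero_iff, RCLike.norm_conj]
        simpa using hz
      rw [indicator_of_mem hz, indicator_of_mem hz', h2]
    · have hz' : conj z ∉ Metric.ball (0 : ℂ) 1 := by
        rw [mem_ball_zero_iff, RCLike.norm_conj]
        simpa using hz
      rw [indicator_of_notMem hz, indicator_of_notMem hz']
  · intro r hr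
    unfold m2
    rw [withDensity_apply _ Metric.isClosed_closedBall.measurableSet]
    have h1 : ∀ z ∈ Metric.closedBall (0 : ℂ) r, ENNReal.ofReal (4 / (1 - ‖z‖ ^ 2) ^ 2) ≤
        ENNReal.ofReal (4 / (1 - r ^ 2) ^ 2) := by
      intro z hz
      have hz1 : ‖z‖ ≤ r := by simpa using hz
      have h0 := norm_nonneg z
      apply ENNReal.ofReal_le_ofReal
      have h3 : 0 < 1 - r ^ 2 := by nlinarith
      have h4 : 1 - r ^ 2 ≤ 1 - ‖z‖ ^ 2 := by nlinarith
      apply div_le_div_of_nonneg_left (by norm_num) (by positivity)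
      nlinarith
    calc ∫⁻ a in Metric.closedBall 0 r, ENNReal.ofReal (4 / (1 - ‖a‖ ^ 2) ^ 2)
          ∂(volume.restrict (Metric.ball 0 1))
        ≤ ∫⁻ a in Metric.closedBall 0 r, ENNReal.ofReal (4 / (1 - r ^ 2) ^ 2)
          ∂(volume.restrict (Metric.ball 0 1)) :=
          setLIntegral_mono' Metric.isClosed_closedBall.measurableSet h1
      _ = ENNReal.ofReal (4 / (1 - r ^ 2) ^ 2) *
          ((volume : Measure ℂ).restrict (Metric.ball 0 1)) (Metric.closedBall 0 r) :=
          setLIntegral_const _ _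
      _ < ∞ := by
          apply ENNReal.mul_lt_top ENNReal.ofReal_lt_top
          exact lt_of_le_of_lt (Measure.restrict_apply_le _ _) measure_closedBall_lt_top

end Pool.Agent.Helper72.QA
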